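import Mathlib
import Pool.Agent.H13.Cat7

namespace Pool.Agent.Results.MP_6c0529_co.Cex

open SimpleGraph Pool.Agent.H13.Cat7

/-- A semilabeled binary tree of size `n`. -/
structure BT (n : ℕ) where
  N : ℕ
  G : SimpleGraph (Fin N)
  tree : G.IsTree
  deg : ∀ v, (G.neighborSet v).ncard = 1 ∨ (G.neighborSet v).ncard = 3
  l : Fin n → Fin N
  inj : l.Injective
  leaf : ∀ v, (∃ i, l i = v) ↔ (G.neighborSet v).ncard = 1

/-- Caterpillar: deleting all leaves leaves a path (automatic for `n ≤ 2`). -/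
def Cat {n : ℕ} (T : BT n) : Prop :=
  n ≤ 2 ∨ ∃ m, Nonempty (pathGraph m ≃g T.G.induce {v | ¬ ∃ i, T.l i = v})

/-- The partitions of the labels obtained by deleting a set of edges. -/
def Ind {n : ℕ} (T : BT n) (P : Setoid (Fin n)) : Prop :=
  ∃ S, ∀ a b, P a b ↔ (T.G.deleteEdges S).Reachable (T.l a) (T.l b)

/-- The number of common induced partitions. -/
noncomputable def com {n : ℕ} (T F : BT n) : ℕ := {P : Setoid (Fin n) | Ind T P ∧ Ind F P}.ncard

/-- `s_n`. -/
noncomputable def s (n : ℕ) : ℕ := sInf {k | ∃ T F : BT n, com T F = k}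

/-- `c_n`. -/
noncomputable def c (n : ℕ) : ℕ := sInf {k | ∃ T F : BT n, Cat T ∧ Cat F ∧ com T F = k}

def Q (p : Fin 7 → ℕ) (P : Setoid (Fin 7)) : Prop :=
  ∀ a a' b b', P a a' → a ≠ a' → P b b' → b ≠ b' → p a ≤ p b → p b ≤ p a' → P a b

theorem four (T : BT 7) {v a b c d : Fin T.N} (ha : T.G.Adj v a) (hb : T.G.Adj v b)
    (hc : T.G.Adj v c) (hd : T.G.Adj v d) (h1 : a ≠ b) (h2 : a ≠ c) (h3 : a ≠ d) (h4 : b ≠ c)
    (h5 : b ≠ d) (h6 : c ≠ d) : False := by
  have h : ({a, b, c, d} : Set _) ⊆ T.G.neighborSet v := by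
    intro x hx
    rcases hx with rfl | rfl | rfl | rfl <;> assumption
  have e := Set.ncard_le_ncard h
  rw [Set.ncard_insert_of_notMem (by simp [*]), Set.ncard_insert_of_notMem (by simp [*]),
    Set.ncard_pair h6] at e
  have := T.deg v
  omega

theorem one (T : BT 7) (a : Fin 7) : ∃ y, T.G.Adj (T.l a) y ∧ ∀ z, T.G.Adj (T.l a) z → z = y := by
  obtain ⟨y, h⟩ := Set.ncard_eq_one.1 ((T.leaf _).1 ⟨a, rfl⟩)
  refine ⟨y, ?_, fun z hz => ?_⟩
  · have : y ∈ T.G.neighborSet (T.l a) := by rw [h]; rfl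
    exact this
  · have : z ∈ T.G.neighborSet (T.l a) := hz
    rw [h] at this
    exact this

theorem nol (T : BT 7) (a b : Fin 7) : ¬ T.G.Adj (T.l a) (T.l b) := by
  intro h
  obtain ⟨y, -, hy⟩ := one T a
  obtain ⟨z, -, hz⟩ := one T b
  have k : ∀ v, T.G.Reachable (T.l a) v → v = T.l a ∨ v = T.l b := by
    intro v r
    induction (reachable_iff_reflTransGen _ _).1 r with
    | refl => exact Or.inl rfl
    | @tail x w p e ih =>
      rcases ih ((reachable_iff_reflTransGen _ _).2 p) with rfl | rfl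
      · exact Or.inr ((hy _ e).trans (hy _ h).symm)
      · exact Or.inl ((hz _ e).trans (hz _ h.symm).symm)
  have k' : ∀ i, i = a ∨ i = b := fun i =>
    (k _ (T.tree.connected _ (T.l i))).imp (fun e => T.inj e) (fun e => T.inj e)
  have := k' 0
  have := k' 1
  have := k' 2
  omega

theorem spine (T : BT 7) (h : Cat T) : ∃ (m : ℕ) (f : ℕ → Fin T.N) (p : Fin 7 → ℕ),
    (∀ a, p a < m) ∧ (∀ a, T.G.Adj (T.l a) (f (p a))) ∧ (∀ k < m, ∀ a, f k ≠ T.l a) ∧
    (∀ k < m, ∀ j < m, f k = f j → k = j) ∧ ∀ k, k + 1 < m → T.G.Adj (f k) (f (k + 1)) := by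
  obtain ⟨m, ⟨e⟩⟩ := h.resolve_left (by omega)
  choose y hy hy' using one T
  have nl : ∀ a, ¬ ∃ i, T.l i = y a := fun a ⟨i, hi⟩ => nol T a i (hi ▸ hy a)
  refine ⟨m, fun k => if h : k < m then (e ⟨k, h⟩).1 else T.l 0, fun a => e.symm ⟨y a, nl a⟩,
    fun a => Fin.is_lt _, fun a => ?_, fun k hk a => ?_, fun k hk j hj => ?_, fun k hk => ?_⟩
  · simpa using hy a
  · simp only [hk, dif_pos]
    exact fun q => (e ⟨k, hk⟩).2 ⟨a, q.symm⟩
  · simp only [hk, hj, dif_pos]
    exact fun q => congrArg Fin.val (e.injective (Subtype.ext q))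
  · simp only [hk, (show k < m by omega), dif_pos]
    exact (e.map_rel_iff (a := ⟨k, by omega⟩) (b := ⟨k + 1, hk⟩)).2 (pathGraph_adj.2 (Or.inl rfl))

theorem ind (T : BT 7) {m : ℕ} {f : ℕ → Fin T.N} {p : Fin 7 → ℕ} (h1 : ∀ a, p a < m)
    (h2 : ∀ a, T.G.Adj (T.l a) (f (p a))) (h3 : ∀ k < m, ∀ a, f k ≠ T.l a)
    (h4 : ∀ k < m, ∀ j < m, f k = f j → k = j) (h5 : ∀ k, k + 1 < m → T.G.Adj (f k) (f (k + 1)))
    (P : Setoid (Fin 7)) (h : Q p P) : Ind T P := by
  let I : Fin T.N → Fin 7 → Prop := fun x a => (∃ b, P a b ∧ x = T.l b) ∨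
    ∃ k b b', P a b ∧ P a b' ∧ b ≠ b' ∧ p b ≤ k ∧ k ≤ p b' ∧ x = f k
  have tr : ∀ x a a', P a a' → I x a' → I x a := by
    rintro x a a' e (⟨b, u, v⟩ | ⟨k, b, b', u, v, w⟩)
    · exact Or.inl ⟨b, P.trans' e u, v⟩
    · exact Or.inr ⟨k, b, b', P.trans' e u, P.trans' e v, w⟩
  have un : ∀ x a a', I x a → I x a' → P a a' := by
    rintro x a a' (⟨b, u, rfl⟩ | ⟨k, b, b', u, v, w, i, j, rfl⟩)
      (⟨d, u', v'⟩ | ⟨k', d, d', u', v', w', i', j', e⟩)
    · exact P.trans' u (P.symm' (T.inj v' ▸ u'))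
    · exact absurd e.symm (h3 _ (j'.trans_lt (h1 _)) _)
    · exact absurd v' (h3 _ (j.trans_lt (h1 _)) _)
    · obtain rfl := h4 _ (j.trans_lt (h1 _)) _ (j'.trans_lt (h1 _)) e
      have x1 := P.trans' (P.symm' u) v
      have x2 := P.trans' (P.symm' u') v'
      rcases le_total (p b) (p d) with g | g
      · exact P.trans' u (P.trans' (h b b' d d' x1 w x2 w' g (by omega)) (P.symm' u'))
      · exact P.trans' u (P.trans' (P.symm' (h d d' b b' x2 w' x1 w g (by omega))) (P.symm' u'))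
  let S : Set (Sym2 (Fin T.N)) := {e | ¬ ∃ a, ∀ x ∈ e, I x a}
  have ad : ∀ x y a, T.G.Adj x y → I x a → I y a → (T.G.deleteEdges S).Adj x y := by
    intro x y a e u v
    refine deleteEdges_adj.2 ⟨e, fun g => g ⟨a, fun z hz => ?_⟩⟩
    rcases Sym2.mem_iff.1 hz with rfl | rfl <;> assumption
  have go : ∀ a b, P a b → a ≠ b → p a ≤ p b →
      (T.G.deleteEdges S).Reachable (T.l a) (T.l b) := by
    intro a b e n g
    have sp : ∀ k, p a ≤ k → k ≤ p b → I (f k) a := fun k i j =>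
      Or.inr ⟨k, a, b, P.refl' a, e, n, i, j, rfl⟩
    have r : ∀ k, p a ≤ k → k ≤ p b → (T.G.deleteEdges S).Reachable (T.l a) (f k) := by
      intro k i
      induction k, i using Nat.le_induction with
      | base => exact fun j => (ad _ _ a (h2 a) (Or.inl ⟨a, P.refl' a, rfl⟩) (sp _ le_rfl j)).reachable
      | succ k i ih =>
        intro j
        have := h1 b
        exact (ih (by omega)).trans
          (ad _ _ a (h5 k (by omega)) (sp _ i (by omega)) (sp _ (by omega) j)).reachable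
    exact (r _ g le_rfl).trans (ad _ _ a (h2 b).symm (sp _ g le_rfl) (Or.inl ⟨b, e, rfl⟩)).reachable
  refine ⟨S, fun a b => ⟨fun e => ?_, fun r => ?_⟩⟩
  · by_cases n : a = b
    · rw [n]
    rcases le_total (p a) (p b) with g | g
    · exact go a b e n g
    · exact (go b a (P.symm' e) (Ne.symm n) g).symm
  · have k : ∀ v, (T.G.deleteEdges S).Reachable (T.l a) v → I v a := by
      intro v r
      induction (reachable_iff_reflTransGen _ _).1 r with
      | refl => exact Or.inl ⟨a, P.refl' a, rfl⟩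
      | @tail x w t e ih =>
        have i := ih ((reachable_iff_reflTransGen _ _).2 t)
        obtain ⟨a', g⟩ := not_not.1 (deleteEdges_adj.1 e).2
        exact tr _ _ _ (un _ _ _ i (g x (by simp))) (g w (by simp))
    exact un _ _ _ (k _ r) (Or.inl ⟨b, P.refl' b, rfl⟩)

theorem key (T : BT 7) (h : Cat T) : ∃ σ : Equiv.Perm (Fin 7),
    ∀ P, Q (fun a => cf r0 (σ.symm a)) P → Ind T P := by
  obtain ⟨m, f, p, h1, h2, h3, h4, h5⟩ := spine T h
  have mo := Tuple.monotone_sort p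
  set σ := Tuple.sort p
  have st : ∀ i j k l : Fin 7, i < j → j < k → k < l → p (σ j) < p (σ k) := by
    intro i j k l a b d
    have m1 : p (σ i) ≤ p (σ j) := mo a.le
    have m2 : p (σ j) ≤ p (σ k) := mo b.le
    have m3 : p (σ k) ≤ p (σ l) := mo d.le
    have ne : ∀ x y : Fin 7, x < y → T.l (σ x) ≠ T.l (σ y) := fun x y g e =>
      g.ne (σ.injective (T.inj e))
    by_contra g
    have e : p (σ k) = p (σ j) := by omega
    have A := (h2 (σ j)).symm
    have B := (h2 (σ k)).symm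
    rw [e] at B
    have x := h1 (σ l)
    have lo : p (σ i) < p (σ j) → T.G.Adj (f (p (σ j))) (f (p (σ j) - 1)) := fun g => by
      have := (h5 (p (σ j) - 1) (by omega)).symm
      rwa [show p (σ j) - 1 + 1 = p (σ j) by omega] at this
    rcases m1.eq_or_lt with u | u <;> rcases m3.eq_or_lt with v | v
    · exact four T A B (u ▸ (h2 (σ i)).symm) (e ▸ v ▸ (h2 (σ l)).symm) (ne _ _ b) (ne _ _ a).symm
        (ne _ _ (b.trans d)) (ne _ _ (a.trans b)).symm (ne _ _ d) (ne _ _ ((a.trans b).trans d))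
    · exact four T A B (u ▸ (h2 (σ i)).symm) (h5 _ (by omega)) (ne _ _ b) (ne _ _ a).symm
        (h3 _ (by omega) _).symm (ne _ _ (a.trans b)).symm (h3 _ (by omega) _).symm
        (h3 _ (by omega) _).symm
    · exact four T A B (lo u) (e ▸ v ▸ (h2 (σ l)).symm) (ne _ _ b) (h3 _ (by omega) _).symm
        (ne _ _ (b.trans d)) (h3 _ (by omega) _).symm (ne _ _ d) (h3 _ (by omega) _)
    · exact four T A B (lo u) (h5 _ (by omega)) (ne _ _ b) (h3 _ (by omega) _).symm
        (h3 _ (by omega) _).symm (h3 _ (by omega) _).symm (h3 _ (by omega) _).symm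
        (fun q => by have := h4 _ (by omega) _ (by omega) q; omega)
  have cm : ∀ i j, p (σ i) ≤ p (σ j) → cf r0 i ≤ cf r0 j := by
    intro i j g
    by_contra n
    have d : ∀ i j : Fin 7, ¬ cf r0 i ≤ cf r0 j → ∃ x y : Fin 7, j ≤ x ∧ 0 < x ∧ x < y ∧ y < 6 ∧ y ≤ i := by
      decide
    obtain ⟨x, y, a, b, d, e, t⟩ := d i j n
    have := st _ _ _ _ b d e
    have m1 : p (σ j) ≤ p (σ x) := mo a
    have m2 : p (σ y) ≤ p (σ i) := mo t
    omega
  refine ⟨σ, fun P g => ind T h1 h2 h3 h4 h5 P fun a a' b b' u v w x y z => g a a' b b' u v w x ?_ ?_⟩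
  · exact cm _ _ (by simpa using y)
  · exact cm _ _ (by simpa using z)

theorem qQ {r : List ℕ} {x : D} (hx : x ∈ L) (h : q r x = true) :
    Q (cf r) (Setoid.ker (cf x.1)) := by
  intro a a' b b' u v w y i j
  by_contra n
  have C := cov
  simp only [List.all_eq_true, U, List.mem_finRange, forall_true_left, Bool.or_eq_true, bne_iff_ne,
    beq_iff_eq, List.any_eq_true, Bool.and_eq_true, List.contains_iff_mem] at C
  obtain ⟨z, hz, g⟩ := (((((C x hx a a').resolve_left (by simp [Setoid.ker_def.1 u, v])) b).resolve_left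
    n) b').resolve_left (by simp [Setoid.ker_def.1 w, y])
  simp only [q, sep, List.all_eq_true, Bool.or_eq_true, Nat.blt_eq] at h
  rcases g with ⟨⟨g1, g2⟩, g3⟩ | ⟨⟨g1, g2⟩, g3⟩ <;> rcases h z hz with t | t
  · have := t _ g2 _ g3; omega
  · have := t _ g3 _ g1; omega
  · have := t _ g3 _ g1; omega
  · have := t _ g2 _ g3; omega

instance : Finite (Setoid (Fin 7)) := Finite.of_injective (fun P => P.r) fun _ _ h => Setoid.ext (by
  intro a b; exact iff_of_eq (congrFun (congrFun h a) b))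

theorem lower (T F : BT 7) (hT : Cat T) (hF : Cat F) : 126 ≤ com T F := by
  classical
  obtain ⟨σ, h1⟩ := key T hT
  obtain ⟨τ, h2⟩ := key F hF
  let r := List.ofFn (cf r0 ∘ (σ.trans τ.symm))
  have hr : r ∈ r0.permutations' := List.mem_permutations'.2
    ((Equiv.Perm.ofFn_comp_perm _ _).trans (by decide))
  have er : ∀ i, cf r i = cf r0 (τ.symm (σ i)) := fun i => by
    simp only [cf, r, List.getD_eq_getElem?_getD, List.getElem?_ofFn, i.is_lt, dif_pos]
    rfl
  have C := List.all_eq_true.1 cnt r hr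
  have ln : 126 ≤ (L.filter (q r)).length := by
    by_contra n
    rw [List.drop_eq_nil_iff.2 (by omega)] at C
    simp at C
  let g : D → Setoid (Fin 7) := fun x => Setoid.ker (cf x.1 ∘ σ.symm)
  have nd : ((L.filter (q r)).map g).Nodup := by
    refine List.pairwise_map.2 ((dif.filter _).imp fun {x y} h e => ?_)
    simp only [List.any_eq_true, bne_iff_ne] at h
    obtain ⟨a, -, b, -, h⟩ := h
    apply h
    have : g x (σ a) (σ b) ↔ g y (σ a) (σ b) := by rw [e]
    simp only [g, Setoid.ker_def, Function.comp, Equiv.symm_apply_apply] at this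
    exact Bool.eq_iff_iff.2 (by simpa using this)
  have sub : (((L.filter (q r)).map g).toFinset : Set _) ⊆ {P | Ind T P ∧ Ind F P} := by
    intro P hP
    simp only [List.coe_toFinset, List.mem_map, List.mem_filter, Set.mem_ofPred_eq] at hP
    obtain ⟨x, ⟨hx, hq⟩, rfl⟩ := hP
    have ne : ∀ a b, a ≠ b → σ.symm a ≠ σ.symm b := fun a b h => σ.symm.injective.ne h
    refine ⟨h1 _ fun a a' b b' u v w y i j => ?_, h2 _ fun a a' b b' u v w y i j => ?_⟩
    · exact qQ hx (List.all_eq_true.1 base x hx) _ _ _ _ u (ne _ _ v) w (ne _ _ y) i j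
    · exact qQ hx hq _ _ _ _ u (ne _ _ v) w (ne _ _ y) (by simpa [er] using i) (by simpa [er] using j)
  have := Set.ncard_le_ncard sub
  rw [Set.ncard_coe_finset, List.toFinset_card_of_nodup nd, List.length_map] at this
  exact ln.trans this

def Gr (p : List ℕ) : SimpleGraph (Fin 12) where
  Adj u v := u ≠ v ∧ (p.getD u 0 = v ∨ p.getD v 0 = u)
  symm := ⟨fun _ _ h => ⟨h.1.symm, h.2.symm⟩⟩
  loopless := ⟨fun _ h => h.1 rfl⟩

instance (p : List ℕ) : DecidableRel (Gr p).Adj := fun u v =>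
  inferInstanceAs (Decidable (u ≠ v ∧ (p.getD u 0 = v ∨ p.getD v 0 = u)))

def mk (p d : List ℕ) (h1 : ∀ v : Fin 12, v = 7 ∨ ∃ u, (Gr p).Adj u v ∧ d.getD u 0 < d.getD v 0)
    (h2 : (Gr p).edgeFinset.card = 11)
    (h3 : ∀ v, (v < 7 ∧ (Gr p).degree v = 1) ∨ (7 ≤ v ∧ (Gr p).degree v = 3)) : BT 7 :=
  have e : ∀ v, ((Gr p).neighborSet v).ncard = (Gr p).degree v := fun v => by
    rw [Set.ncard_eq_toFinset_card']; rfl
  { N := 12
    G := Gr p
    tree := by
      rw [isTree_iff_connected_and_card]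
      constructor
      · have r : ∀ k (v : Fin 12), d.getD v 0 = k → (Gr p).Reachable 7 v := by
          intro k
          induction k using Nat.strong_induction_on with
          | _ k ih =>
            intro v hv
            rcases h1 v with rfl | ⟨u, a, b⟩
            · rfl
            · exact (ih _ (hv ▸ b) u rfl).trans a.reachable
        exact ⟨fun u v => (r _ u rfl).symm.trans (r _ v rfl)⟩
      · rw [Nat.card_eq_fintype_card, Nat.card_eq_fintype_card, ← edgeFinset_card, h2]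
        rfl
    deg := fun v => by rw [e]; exact (h3 v).imp And.right And.right
    l := Fin.castLE (by norm_num)
    inj := Fin.castLE_injective _
    leaf := fun v => by
      rw [e]
      have : (∃ i : Fin 7, Fin.castLE (by norm_num) i = v) ↔ v < 7 := by revert v; decide
      rw [this]
      have := h3 v
      omega }

def pT : List ℕ := [9, 11, 11, 8, 8, 10, 10, 7, 9, 7, 7, 7]
def pF : List ℕ := [9, 11, 7, 11, 7, 10, 8, 7, 7, 8, 9, 10]

def T0 : BT 7 := mk pT [9, 9, 9, 9, 9, 9, 9, 0, 2, 1, 1, 1] (by decide +kernel) (by decide +kernel)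
  (by decide +kernel)

def F0 : BT 7 := mk pF [9, 9, 9, 9, 9, 9, 9, 0, 1, 2, 3, 4] (by decide +kernel) (by decide +kernel)
  (by decide +kernel)

theorem catF : Cat F0 := by
  refine Or.inr ⟨5, ⟨⟨Equiv.ofBijective (fun k => ⟨(⟨k.1 + 7, by omega⟩ : Fin 12), ?_⟩) ⟨?_, ?_⟩, ?_⟩⟩⟩
  · rintro ⟨i, h⟩
    have : i.1 = k.1 + 7 := congrArg Fin.val h
    omega
  · intro a b h
    have : a.1 + 7 = b.1 + 7 := congrArg (fun x => x.1.1) h
    omega
  · rintro ⟨v, h⟩
    have k : 7 ≤ v.1 := by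
      by_contra n
      exact h ⟨⟨v.1, by omega⟩, rfl⟩
    have : v.1 < 12 := v.2
    exact ⟨⟨v.1 - 7, by omega⟩, Subtype.ext (Fin.ext (show v.1 - 7 + 7 = v.1 by omega))⟩
  · intro a b
    rw [pathGraph_adj]
    show (Gr pF).Adj ⟨a.1 + 7, by omega⟩ ⟨b.1 + 7, by omega⟩ ↔ _
    revert a b
    decide

theorem cross {V : Type} {G H : SimpleGraph V} (hl : H ≤ G) (W : V → Prop) (u : V)
    (h : ∀ x y, G.Adj x y → W x → ¬ W y → x = u) {x y : V} (p : H.Walk x y) :
    W x → ¬ W y → H.Reachable x u := by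
  induction p with
  | nil => exact fun a b => absurd a b
  | @cons x z y e p ih =>
    intro a b
    by_cases g : W z
    · exact e.reachable.trans (ih g b)
    · rw [h x z (hl e) a g]

theorem spl (p : List ℕ) (S) (l : List ℕ) (W : List (Fin 12)) (u : Fin 12) (X Y : List (Fin 7))
    (e : ∀ a b : Fin 7, cf l a = cf l b ↔ ((Gr p).deleteEdges S).Reachable
      (Fin.castLE (by norm_num) a) (Fin.castLE (by norm_num) b))
    (h : (∀ x y, (Gr p).Adj x y → x ∈ W → y ∉ W → x = u) ∧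
      (∀ a ∈ X, Fin.castLE (by norm_num) a ∈ W) ∧ ∀ a ∈ Y, Fin.castLE (by norm_num) a ∉ W) :
    sp l X Y = true := by
  simp only [sp, List.all_eq_true, Bool.or_eq_true, beq_iff_eq, Bool.not_eq_true',
    Bool.and_eq_false_iff, List.any_eq_false]
  intro a ha b hb
  by_contra n
  push Not at n
  obtain ⟨n, ⟨x, hx, i⟩, y, hy, j⟩ := n
  obtain ⟨w1⟩ := (e _ _).1 i
  obtain ⟨w2⟩ := (e _ _).1 j
  exact n ((e _ _).2 ((cross (deleteEdges_le _) _ u h.1 w1 (h.2.1 _ ha) (h.2.2 _ hx)).trans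
    (cross (deleteEdges_le _) _ u h.1 w2 (h.2.1 _ hb) (h.2.2 _ hy)).symm))

theorem upper : com T0 F0 ≤ 125 := by
  have sub : {P | Ind T0 P ∧ Ind F0 P} ⊆ {P | P ∈ E.map fun l => Setoid.ker (cf l)} := by
    rintro P ⟨⟨S, hS⟩, S', hS'⟩
    choose m hm hm' using fun a => wellFounded_lt.has_min {b | P a b} ⟨a, P.refl' a⟩
    have k : ∀ a b, m a = m b ↔ P a b := fun a b =>
      ⟨fun e => P.trans' (hm a) (P.symm' (e ▸ hm b)), fun e => le_antisymm
        (not_lt.1 (hm' a _ (P.trans' e (hm b)))) (not_lt.1 (hm' b _ (P.trans' (P.symm' e) (hm a))))⟩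
    let l := List.ofFn fun a => (m a : ℕ)
    have el : ∀ i, cf l i = m i := fun i => by
      simp only [cf, l, List.getD_eq_getElem?_getD, List.getElem?_ofFn, i.is_lt, dif_pos]
      rfl
    have k' : ∀ a b, cf l a = cf l b ↔ P a b := fun a b => by rw [el, el, Fin.val_inj, k]
    have le : ∀ a, (m a : ℕ) ≤ a := fun a => not_lt.1 (hm' a a (P.refl' a))
    have eT := fun a b => (k' a b).trans (hS a b)
    have eF := fun a b => (k' a b).trans (hS' a b)
    refine List.mem_map.2 ⟨l, List.mem_filter.2 ⟨List.mem_sections.2 ?_, ?_⟩, Setoid.ext k'⟩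
    · refine List.forall₂_of_length_eq_of_get (by simp [l]) fun i a b => ?_
      simp only [l, List.get_eq_getElem, List.getElem_ofFn, List.getElem_map, List.getElem_range,
        List.mem_range, Nat.lt_succ_iff]
      exact le _
    · simp only [ok, Bool.and_eq_true]
      refine ⟨⟨⟨⟨⟨⟨⟨⟨List.all_eq_true.2 fun i _ => beq_iff_eq.2 ?_,
        spl pT S l [3, 4, 8] 8 _ _ eT ⟨by decide, by decide⟩⟩, spl pT S l [0, 3, 4, 8, 9] 9 _ _ eT ⟨by decide, by decide⟩⟩,
        spl pT S l [5, 6, 10] 10 _ _ eT ⟨by decide, by decide⟩⟩, spl pT S l [1, 2, 11] 11 _ _ eT ⟨by decide, by decide⟩⟩,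
        spl pF S' l [2, 4, 7] 7 _ _ eF ⟨by decide, by decide⟩⟩, spl pF S' l [2, 4, 6, 7, 8] 8 _ _ eF ⟨by decide, by decide⟩⟩,
        spl pF S' l [1, 3, 5, 10, 11] 10 _ _ eF ⟨by decide, by decide⟩⟩,
        spl pF S' l [1, 3, 11] 11 _ _ eF ⟨by decide, by decide⟩⟩
      rw [el]
      exact (el (m i)).trans (congrArg Fin.val ((k _ _).2 (P.symm' (hm i))))
  classical
  rw [← List.coe_toFinset] at sub
  have := Set.ncard_le_ncard sub
  rw [Set.ncard_coe_finset] at this
  exact this.trans ((List.toFinset_card_le _).trans (by rw [List.length_map, lenE]))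

theorem result : s 7 < c 7 := by
  have h : s 7 ≤ 125 := (Nat.sInf_le (m := com T0 F0) (by exact ⟨T0, F0, rfl⟩)).trans upper
  obtain ⟨T, F, hT, hF, e⟩ := Nat.sInf_mem (s := {k | ∃ T F : BT 7, Cat T ∧ Cat F ∧ com T F = k})
    ⟨_, F0, F0, catF, catF, rfl⟩
  have := lower T F hT hF
  unfold c
  omega

end Pool.Agent.Results.MP_6c0529_co.Cex
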